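import Pool.Agent.H899.JC.Len

/-! Independence of the choice of the root of unity in the complex numbers. -/

set_option autoImplicit false

namespace Pool.Agent.H899.JC

open Pool.Agent.JC3 IsLocalRing

section conj

variable {k : Type} [Field k]

/-- transport of a space of functions by a field automorphism -/
def conjS (σ : k ≃+* k) (U : Submodule k (List ℕ → k)) : Submodule k (List ℕ → k) where
  carrier := {f | (fun w => σ.symm (f w)) ∈ U}
  add_mem' := by
    intro f g hf hg
    have h := U.add_mem hf hg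
    have e : (fun w => σ.symm ((f + g) w)) =
        (fun w => σ.symm (f w)) + (fun w => σ.symm (g w)) := by
      funext w; simp
    show _ ∈ U
    rw [e]; exact h
  zero_mem' := by
    have e : (fun w => σ.symm ((0 : List ℕ → k) w)) = 0 := by funext w; simp
    show _ ∈ U
    rw [e]; exact U.zero_mem
  smul_mem' := by
    intro c f hf
    have h := U.smul_mem (σ.symm c) hf
    have e : (fun w => σ.symm ((c • f) w)) = σ.symm c • (fun w => σ.symm (f w)) := by
      funext w; simp
    show _ ∈ U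
    rw [e]; exact h

lemma mem_conjS (σ : k ≃+* k) (U : Submodule k (List ℕ → k)) (f : List ℕ → k) :
    f ∈ conjS σ U ↔ (fun w => σ.symm (f w)) ∈ U := Iff.rfl

lemma conj_TL (σ : k ≃+* k) (q : k) (i : ℕ) (f : List ℕ → k) :
    (fun w => σ.symm (TL q i f w)) = TL (σ.symm q) i (fun w => σ.symm (f w)) := by
  funext w
  rw [TL_apply, TL_apply]
  split_ifs <;> simp

lemma conj_zf (σ : k ≃+* k) (κ : List ℕ) : (fun w => σ.symm (zf k κ w)) = zf k κ := by
  funext w
  unfold zf
  split_ifs <;> simp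

lemma conjS_stable (σ : k ≃+* k) {q : k} {n : ℕ} {U : Submodule k (List ℕ → k)}
    (hU : Stable q n U) : Stable (σ q) n (conjS σ U) := by
  intro i hi f hf
  rw [mem_conjS, conj_TL, RingEquiv.symm_apply_apply]
  exact hU i hi _ hf

lemma conjS_le_iff (σ : k ≃+* k) {U U' : Submodule k (List ℕ → k)} :
    conjS σ U ≤ conjS σ U' ↔ U ≤ U' := by
  constructor
  · intro h f hf
    have h1 : (fun w => σ (f w)) ∈ conjS σ U := by
      rw [mem_conjS]
      have e : (fun w => σ.symm (σ (f w))) = f := by funext w; simp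
      rw [e]; exact hf
    have h2 := h h1
    rw [mem_conjS] at h2
    have e : (fun w => σ.symm (σ (f w))) = f := by funext w; simp
    rw [e] at h2; exact h2
  · intro h f hf
    exact h hf

lemma conjS_SpL (σ : k ≃+* k) (q : k) (κ : List ℕ) : conjS σ (SpL q κ) ≤ SpL (σ q) κ := by
  have h : SpL q κ ≤ conjS σ.symm (SpL (σ q) κ) := by
    apply SpL_le
    · have h1 := conjS_stable σ.symm (SpL_stable (σ q) κ)
      rw [RingEquiv.symm_apply_apply] at h1
      exact h1
    · rw [mem_conjS, conj_zf]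
      exact zf_mem_SpL _ _
  intro f hf
  have h1 := h hf
  rw [mem_conjS] at h1
  have e : (fun w => σ.symm.symm (σ.symm (f w))) = f := by funext w; simp
  rw [e] at h1
  exact h1

lemma krull_conj_le (σ : k ≃+* k) (q : k) (κ : List ℕ) :
    Order.krullDim (SubSt q κ) ≤ Order.krullDim (SubSt (σ q) κ) := by
  let φ : SubSt q κ → SubSt (σ q) κ := fun U =>
    ⟨conjS σ U.1, conjS_stable σ U.2.1, ((conjS_le_iff σ).2 U.2.2).trans (conjS_SpL σ q κ)⟩
  apply Order.krullDim_le_of_strictMono φ
  intro U U' h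
  have h' : U.1 < U'.1 := h
  show conjS σ U.1 < conjS σ U'.1
  rw [lt_iff_le_not_ge] at h' ⊢
  exact ⟨(conjS_le_iff σ).2 h'.1, fun h2 => h'.2 ((conjS_le_iff σ).1 h2)⟩

end conj

lemma root_conj {ζ : ℂ} (hζ : 1 + ζ + ζ ^ 2 = 0) : (starRingAut : ℂ ≃+* ℂ) ζ = -1 - ζ := by
  have e : (starRingAut : ℂ ≃+* ℂ) ζ = (starRingEnd ℂ) ζ := rfl
  rw [e]
  have h1 : 1 + (starRingEnd ℂ) ζ + ((starRingEnd ℂ) ζ) ^ 2 = 0 := by
    rw [← map_pow, ← map_one (starRingEnd ℂ), ← map_add, ← map_add, hζ, map_zero]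
  have h2 : ((starRingEnd ℂ) ζ - ζ) * ((starRingEnd ℂ) ζ + ζ + 1) = 0 := by
    linear_combination h1 - hζ
  rcases mul_eq_zero.1 h2 with h | h
  · exfalso
    obtain ⟨r, hr⟩ := Complex.conj_eq_iff_real.1 (sub_eq_zero.1 h)
    rw [hr] at hζ
    have h3 : (1 + r + r ^ 2 : ℝ) = 0 := by exact_mod_cast hζ
    nlinarith [sq_nonneg (r + 1 / 2)]
  · linear_combination h

/-- the two primitive cube roots of unity in the complex numbers give the same length -/
lemma krull_roots {ζ : ℂ} (hζ : 1 + ζ + ζ ^ 2 = 0) (κ : List ℕ) :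
    Order.krullDim (SubSt ζ κ) ≤ Order.krullDim (SubSt (-1 - ζ) κ) := by
  have h := krull_conj_le (starRingAut : ℂ ≃+* ℂ) ζ κ
  rwa [root_conj hζ] at h

/-- the comparison for all roots -/
theorem krull_lt' (A : ValuationSubring ℂ) (h11 : (11 : A) ∈ maximalIdeal A) {ζ : ℂ}
    (hζ : 1 + ζ + ζ ^ 2 = 0) {q : ResidueField A} (hq : 1 + q + q ^ 2 = 0) :
    Order.krullDim (SubSt ζ kap) < Order.krullDim (SubSt q kap) := by
  have hζ' : 1 + (-1 - ζ) + (-1 - ζ) ^ 2 = 0 := by linear_combination hζ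
  let z : A := ⟨ζ, mem_of_root hζ⟩
  let z' : A := ⟨-1 - ζ, mem_of_root hζ'⟩
  have hz := one_add A z hζ
  have hz' := one_add A z' hζ'
  have hs : residue A z + residue A z' + 1 = 0 := by
    have : (z + z' + 1 : A) = 0 := by
      apply Subtype.ext
      show ζ + (-1 - ζ) + 1 = 0
      ring
    rw [← map_one (residue A), ← map_add, ← map_add, this, map_zero]
  have h2 : (q - residue A z) * (q - residue A z') = 0 := by
    linear_combination hq - hz + (residue A z - q) * hs
  rcases mul_eq_zero.1 h2 with h | h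
  · rw [sub_eq_zero.1 h]
    exact krull_lt A h11 z hζ
  · rw [sub_eq_zero.1 h]
    exact lt_of_le_of_lt (krull_roots hζ kap) (krull_lt A h11 z' hζ')

end Pool.Agent.H899.JC
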