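import Mathlib

/-! Composition multiplicities of modules and lists of simple modules. -/

set_option autoImplicit false

namespace Pool.Agent.H899.JC

/-- the number of the factors of the series `s` which are isomorphic to `D` -/
noncomputable def factors {R M : Type} [Ring R] [AddCommGroup M] [Module R M]
    (s : CompositionSeries (Submodule R M)) (D : Type) [AddCommGroup D] [Module R D] : ℕ :=
  Nat.card {i : Fin s.length //
    Nonempty ((s i.succ ⧸ (s i.castSucc).submoduleOf (s i.succ)) ≃ₗ[R] D)}

/-- the composition multiplicity `[M : D]`: the number of the factors isomorphic to `D` in a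
composition series of `M` (by the theorem of Jordan and Hoelder in every one) -/
noncomputable def mult (R M D : Type) [Ring R] [AddCommGroup M] [Module R M] [AddCommGroup D]
    [Module R D] : ℕ :=
  sInf {m | ∃ s : CompositionSeries (Submodule R M), s.head = ⊥ ∧ s.last = ⊤ ∧ factors s D = m}

/-- `D` is a complete list of the simple modules of the algebra, without repetitions -/
structure IsList (R : Type) [Ring R] {I : Type} (D : I → Type) [∀ i, AddCommGroup (D i)]
    [∀ i, Module R (D i)] : Prop where
  simple : ∀ i, IsSimpleModule R (D i)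
  inj : ∀ i j, Nonempty (D i ≃ₗ[R] D j) → i = j
  complete : ∀ (S : Type) [AddCommGroup S] [Module R S], IsSimpleModule R S →
    ∃ i, Nonempty (S ≃ₗ[R] D i)

section

variable {R M : Type} [Ring R] [AddCommGroup M] [Module R M]

lemma fac_iso {x y : Submodule R M × Submodule R M} (h : JordanHolderLattice.Iso x y) :
    Nonempty ((x.2 ⧸ x.1.submoduleOf x.2) ≃ₗ[R] (y.2 ⧸ y.1.submoduleOf y.2)) := by
  refine JordanHolderLattice.Iso.rel (X := Submodule R M)
    (fun x y => Nonempty ((x.2 ⧸ x.1.submoduleOf x.2) ≃ₗ[R] (y.2 ⧸ y.1.submoduleOf y.2)))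
    (fun {x} => ⟨LinearEquiv.refl R _⟩) (fun {x y} h => ⟨h.some.symm⟩)
    (fun {x y z} h h' => ⟨h.some.trans h'.some⟩) (fun {x y} _ => ?_) h
  have e := LinearMap.quotientInfEquivSupQuotient y x
  rw [sup_comm y x] at e
  have h1 : Submodule.comap y.subtype y ⊓ Submodule.comap y.subtype x =
      (x ⊓ y).submoduleOf y := by
    rw [← Submodule.comap_inf, inf_comm]
    rfl
  exact ⟨(e.symm.trans (Submodule.quotEquivOfEq _ _ h1))⟩

lemma factors_eq (s t : CompositionSeries (Submodule R M)) (h1 : s.head = t.head)
    (h2 : s.last = t.last) (D : Type) [AddCommGroup D] [Module R D] :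
    factors s D = factors t D := by
  obtain ⟨f, hf⟩ := s.jordan_holder t h1 h2
  refine Nat.card_congr (f.subtypeEquiv (fun i => ?_))
  obtain ⟨e⟩ := fac_iso (hf i)
  exact ⟨fun ⟨g⟩ => ⟨e.symm.trans g⟩, fun ⟨g⟩ => ⟨e.trans g⟩⟩

lemma mult_eq (s : CompositionSeries (Submodule R M)) (h1 : s.head = ⊥) (h2 : s.last = ⊤)
    (D : Type) [AddCommGroup D] [Module R D] : mult R M D = factors s D := by
  have : {m | ∃ s : CompositionSeries (Submodule R M), s.head = ⊥ ∧ s.last = ⊤ ∧
      factors s D = m} = {factors s D} := by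
    ext m
    constructor
    · rintro ⟨t, a, b, rfl⟩
      exact factors_eq t s (a.trans h1.symm) (b.trans h2.symm) D
    · rintro rfl
      exact ⟨s, h1, h2, rfl⟩
  unfold mult
  rw [this, csInf_singleton]

lemma simple_fac (s : CompositionSeries (Submodule R M)) (i : Fin s.length) :
    IsSimpleModule R (s i.succ ⧸ (s i.castSucc).submoduleOf (s i.succ)) := by
  have h : s i.castSucc ⋖ s i.succ := s.step i
  exact (covBy_iff_quot_is_simple h.le).1 h

lemma exists_label (s : CompositionSeries (Submodule R M)) {I : Type} (D : I → Type)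
    [∀ i, AddCommGroup (D i)] [∀ i, Module R (D i)] (hD : IsList R D) :
    ∃ g : Fin s.length → I, ∀ i j,
      Nonempty ((s j.succ ⧸ (s j.castSucc).submoduleOf (s j.succ)) ≃ₗ[R] D i) ↔ g j = i := by
  choose g hg using fun j : Fin s.length => hD.complete _ (simple_fac s j)
  refine ⟨g, fun i j => ⟨fun ⟨e⟩ => ?_, fun h => h ▸ hg j⟩⟩
  obtain ⟨e'⟩ := hg j
  exact hD.inj _ _ ⟨e'.symm.trans e⟩

end

/-- equal multiplicities give equal lengths -/
theorem length_eq_of_mult {R M R' M' : Type} [Ring R] [AddCommGroup M] [Module R M] [Ring R']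
    [AddCommGroup M'] [Module R' M'] (hM : Module.length R M ≠ ⊤) (hM' : Module.length R' M' ≠ ⊤)
    {I : Type} (D D' : I → Type) [∀ i, AddCommGroup (D i)] [∀ i, Module R (D i)]
    [∀ i, AddCommGroup (D' i)] [∀ i, Module R' (D' i)] (hD : IsList R D) (hD' : IsList R' D')
    (h : ∀ i, mult R M (D i) = mult R' M' (D' i)) : Module.length R M = Module.length R' M' := by
  obtain ⟨s, s1, s2⟩ := isFiniteLength_iff_exists_compositionSeries.1
    (Module.length_ne_top_iff.1 hM)
  obtain ⟨t, t1, t2⟩ := isFiniteLength_iff_exists_compositionSeries.1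
    (Module.length_ne_top_iff.1 hM')
  rw [← Module.length_compositionSeries s s1 s2, ← Module.length_compositionSeries t t1 t2]
  obtain ⟨g, hg⟩ := exists_label s D hD
  obtain ⟨g', hg'⟩ := exists_label t D' hD'
  have key : ∀ i, Nonempty ({j // g j = i} ≃ {j // g' j = i}) := by
    intro i
    have h1 := h i
    rw [mult_eq s s1 s2, mult_eq t t1 t2] at h1
    unfold factors at h1
    rw [Nat.card_congr (Equiv.subtypeEquivRight (hg i)),
      Nat.card_congr (Equiv.subtypeEquivRight (hg' i))] at h1
    exact Finite.card_eq.1 h1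
  have e : Fin s.length ≃ Fin t.length :=
    (Equiv.sigmaFiberEquiv g).symm.trans
      ((Equiv.sigmaCongrRight fun i => (key i).some).trans (Equiv.sigmaFiberEquiv g'))
  have := Fintype.card_congr e
  rw [Fintype.card_fin, Fintype.card_fin] at this
  rw [this]

end Pool.Agent.H899.JC
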