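import Pool.Agent.H899.JC.Pieces
import Pool.Graph.R_pool_sql_team_seeded_620a6dc7.JC3.RedAux
import Pool.Graph.R_pool_sql_team_seeded_620a6dc7.JC3.Order
import Pool.Graph.R_pool_sql_team_seeded_620a6dc7.JC3.P

/-! Comparison of the lengths of the Specht modules in characteristics 0 and 11. -/

set_option autoImplicit false

namespace Pool.Agent.H899.JC

open Pool.Agent.JC3 IsLocalRing

lemma kap_part : IsPart kap := by
  constructor
  · decide
  · decide

lemma kap_sum : kap.sum = 30 := by decide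

/-- facts for every field in which the integers prime to 11 are units -/
lemma facts {k : Type} [Field k] {q : k} (hq : 1 + q + q ^ 2 = 0)
    (hg : ∀ d : ℕ, d % 11 ≠ 0 → (d : k) ≠ 0) :
    ((11 : k) = 0 → 11 ≤ Module.finrank k ((radL q kap).map (NL q iR))) ∧
    ((11 : k) ≠ 0 → Module.finrank k ((radL q kap).map (NL q iR)) ≤ 10) ∧
    radL q kap ≠ SpL q kap ∧
    Module.finrank k (SpL q kap) = Nat.card {t : List ℕ // Yam t ∧ t.Perm (rowWord kap)} := by
  obtain ⟨O, K, _, _, _, _, _, c, rfl⟩ := H4_proof k q hq hg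
  exact ⟨h1 O K k c, h2 O K k c, h3 O K k c, e4 O K k c kap kap_part⟩

lemma hq1 {k : Type} [Field k] {q : k} (hq : 1 + q + q ^ 2 = 0) : q ≠ 0 ∧ 1 + q ≠ 0 := by
  constructor
  · rintro rfl; simp at hq
  · intro h
    rw [h, zero_add] at hq
    have : q = 0 := by simpa using hq
    rw [this] at h; simp at h

lemma radL_le {k : Type} [Field k] (q : k) (κ : List ℕ) : radL q κ ≤ SpL q κ := fun _ h => h.1


section red

attribute [local irreducible] kap iR

variable (A : ValuationSubring ℂ)

lemma finrank_redL {U : Submodule ℂ (List ℕ → ℂ)} (hU : U ≤ MM ℂ kap) :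
    Module.finrank (ResidueField A) (redL A U) = Module.finrank ℂ U :=
  I2_proof A U (permSet kap) (fun _ hf _ hw => MM_zero (hU hf) hw)

lemma good_of (h11 : (11 : A) ∈ maximalIdeal A) :
    (11 : ResidueField A) = 0 ∧ ∀ d : ℕ, d % 11 ≠ 0 → (d : ResidueField A) ≠ 0 := by
  have e : (11 : ResidueField A) = 0 := by
    have h := (residue_eq_zero_iff (R := A) (11 : A)).2 h11
    rw [map_ofNat] at h
    exact h
  refine ⟨e, fun d hd h => ?_⟩
  have hc : IsCoprime (d : ℤ) 11 := by
    have : Nat.Coprime d 11 :=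
      ((Nat.Prime.coprime_iff_not_dvd (by norm_num : Nat.Prime 11)).2
        (fun h => hd (Nat.mod_eq_zero_of_dvd h))).symm
    exact_mod_cast Nat.isCoprime_iff_coprime.2 this
  obtain ⟨a, b, hab⟩ := hc
  have h1 : ((a * d + b * 11 : ℤ) : ResidueField A) = 1 := by rw [hab]; simp
  push_cast at h1
  rw [h, e] at h1
  simp at h1

variable {A} in
lemma mem_of_root {ζ : ℂ} (hζ : 1 + ζ + ζ ^ 2 = 0) : ζ ∈ A := by
  rcases A.mem_or_inv_mem ζ with h | h
  · exact h
  · have h3 : ζ ^ 3 = 1 := by linear_combination (ζ - 1) * hζ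
    have h0 : ζ ≠ 0 := by rintro rfl; simp at hζ
    have : ζ = ζ⁻¹ * ζ⁻¹ := by
      field_simp
      linear_combination h3
    rw [this]
    exact A.mul_mem _ _ h h

lemma one_add (q : A) (hq : 1 + (q : ℂ) + (q : ℂ) ^ 2 = 0) :
    1 + residue A q + residue A q ^ 2 = 0 := by
  have : (1 + q + q ^ 2 : A) = 0 := by
    apply Subtype.ext
    push_cast
    exact hq
  rw [← map_pow, ← map_one (residue A), ← map_add, ← map_add, this, map_zero]

lemma redL_SpL (h11 : (11 : A) ∈ maximalIdeal A) (q : A) (hq : 1 + (q : ℂ) + (q : ℂ) ^ 2 = 0) :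
    redL A (SpL (q : ℂ) kap) = SpL (residue A q) kap := by
  have hle : SpL (residue A q) kap ≤ redL A (SpL (q : ℂ) kap) :=
    SpL_le _ _ (fun k hk f hf => redL_stable q (SpL_stable (q : ℂ) kap) k hk f hf)
      (zf_mem_redL (zf_mem_SpL _ _))
  have hM := SpL_le_MM (q : ℂ) kap
  have := finiteDimensional_of_le_MM (redL_le_MM (A := A) hM)
  symm
  apply Submodule.eq_of_le_of_finrank_eq hle
  rw [finrank_redL A hM, (facts hq (fun d hd => by
    have : d ≠ 0 := by rintro rfl; simp at hd
    exact_mod_cast this)).2.2.2, (facts (one_add A q hq) (good_of A h11).2).2.2.2]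

/-- the comparison: there are at least two more steps -/
theorem krull_lt (h11 : (11 : A) ∈ maximalIdeal A) (q : A)
    (hq : 1 + (q : ℂ) + (q : ℂ) ^ 2 = 0) :
    Order.krullDim (SubSt (q : ℂ) kap) < Order.krullDim (SubSt (residue A q) kap) := by
  obtain ⟨e11, hg⟩ := good_of A h11
  have hr := one_add A q hq
  obtain ⟨a1, a2, a3, a4⟩ := facts hr hg
  obtain ⟨b1, b2, b3', b4'⟩ := facts hq (fun d hd => by
    have : d ≠ 0 := by rintro rfl; simp at hd
    exact_mod_cast this : ∀ d : ℕ, d % 11 ≠ 0 → (d : ℂ) ≠ 0)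
  have hSp := redL_SpL A h11 q hq
  have hMC := SpL_le_MM (q : ℂ) kap
  have hMk := SpL_le_MM (residue A q) kap
  have hmono : ∀ {U U' : Submodule ℂ (List ℕ → ℂ)}, U < U' → U' ≤ SpL (q : ℂ) kap →
      redL A U < redL A U' := by
    intro U U' h1 h2
    refine lt_of_le_of_ne (redL_mono A h1.le) (fun he => ?_)
    have e1 := finrank_redL A ((h1.le.trans h2).trans hMC)
    have e2 := finrank_redL A (h2.trans hMC)
    rw [he, e2] at e1
    have := finiteDimensional_of_le_MM (h2.trans hMC)
    exact absurd e1 (Submodule.finrank_lt_finrank_of_lt h1).ne'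
  let φ : SubSt (q : ℂ) kap → SubSt (residue A q) kap := fun U =>
    ⟨redL A U.1, redL_stable q U.2.1, (redL_mono A U.2.2).trans hSp.le⟩
  have hφ : StrictMono φ := fun U U' h => hmono (show U.1 < U'.1 from h) U'.2.2
  let top : SubSt (q : ℂ) kap := ⟨SpL (q : ℂ) kap, SpL_stable _ _, le_rfl⟩
  let rC : SubSt (q : ℂ) kap := ⟨radL (q : ℂ) kap, stable_radL B1_proof, radL_le _ _⟩
  let topF : SubSt (residue A q) kap := ⟨SpL (residue A q) kap, SpL_stable _ _, le_rfl⟩
  let rF : SubSt (residue A q) kap := ⟨radL (residue A q) kap, stable_radL B1_proof, radL_le _ _⟩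
  refine krullDim_lt φ hφ top rC (fun U => U.2.2) (fun U => ?_) rF topF ?_ ?_
    (Module.finrank ℂ (SpL (q : ℂ) kap)) (fun p => ?_)
  · rcases b3 ℂ (q : ℂ) kap kap_part (hq1 hq).1 (hq1 hq).2 U.1 U.2.1 U.2.2 with h | h
    · exact Or.inl (Subtype.ext h)
    · exact Or.inr h
  · show redL A (radL (q : ℂ) kap) < radL (residue A q) kap
    have hlt : redL A (radL (q : ℂ) kap) < SpL (residue A q) kap := by
      rw [← hSp]
      exact hmono (lt_of_le_of_ne (radL_le _ _) b3') le_rfl
    refine lt_of_le_of_ne ?_ (fun he => ?_)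
    · rcases b3 (ResidueField A) (residue A q) kap kap_part (hq1 hr).1 (hq1 hr).2 _
        (φ rC).2.1 (φ rC).2.2 with h | h
      · exact absurd h hlt.ne
      · exact h
    · have c1 := a1 e11
      rw [← he] at c1
      have hmapM : (radL (q : ℂ) kap).map (NL (q : ℂ) iR) ≤ MM ℂ kap := by
        rintro _ ⟨f, hf, rfl⟩
        exact NL_memMM _ _ _ (hMC (radL_le _ _ hf))
      have c2 := finiteDimensional_of_le_MM (redL_le_MM (A := A) hmapM)
      have c3 := Submodule.finrank_mono (NL_redL (q := q) (r := iR) (U := radL (q : ℂ) kap))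
      rw [finrank_redL A hmapM] at c3
      have c4 := b2 (by norm_num)
      have c5 : 11 ≤ 10 := c1.trans (c3.trans c4)
      exact absurd c5 (by norm_num)
  · show radL (residue A q) kap < SpL (residue A q) kap
    exact lt_of_le_of_ne (radL_le _ _) a3
  · have := finiteDimensional_of_le_MM hMC
    have key : ∀ n : ℕ, ∀ h : n < p.length + 1, n ≤ Module.finrank ℂ (p ⟨n, h⟩).1 := by
      intro n
      induction n with
      | zero => intro h; exact Nat.zero_le _
      | succ n ih =>
        intro h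
        have h1 := ih (by omega)
        have h2 : p ⟨n, by omega⟩ < p ⟨n + 1, h⟩ := p.strictMono (by simp [Fin.lt_def])
        have := finiteDimensional_of_le_MM ((p ⟨n + 1, h⟩).2.2.trans hMC)
        have h3 := Submodule.finrank_lt_finrank_of_lt
          (show (p ⟨n, by omega⟩).1 < (p ⟨n + 1, h⟩).1 from h2)
        omega
    exact (key p.length (by omega)).trans (Submodule.finrank_mono (p ⟨p.length, by omega⟩).2.2)

end red

end Pool.Agent.H899.JC
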