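import Pool.Graph.R_pool_sql_team_seeded_620a6dc7.JC3.A123
import Pool.Graph.R_pool_sql_team_seeded_620a6dc7.JC3.A45
import Pool.Graph.R_pool_sql_team_seeded_620a6dc7.JC3.A6
import Pool.Graph.R_pool_sql_team_seeded_620a6dc7.JC3.B1
import Pool.Graph.R_pool_sql_team_seeded_620a6dc7.JC3.B2
import Pool.Graph.R_pool_sql_team_seeded_620a6dc7.JC3.B34
import Pool.Graph.R_pool_sql_team_seeded_620a6dc7.JC3.C124
import Pool.Graph.R_pool_sql_team_seeded_620a6dc7.JC3.C3
import Pool.Graph.R_pool_sql_team_seeded_620a6dc7.JC3.C5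
import Pool.Graph.R_pool_sql_team_seeded_620a6dc7.JC3.D1
import Pool.Graph.R_pool_sql_team_seeded_620a6dc7.JC3.D2
import Pool.Graph.R_pool_sql_team_seeded_620a6dc7.JC3.D3
import Pool.Graph.R_pool_sql_team_seeded_620a6dc7.JC3.E12
import Pool.Graph.R_pool_sql_team_seeded_620a6dc7.JC3.E34
import Pool.Graph.R_pool_sql_team_seeded_620a6dc7.JC3.E5
import Pool.Graph.R_pool_sql_team_seeded_620a6dc7.JC3.E6
import Pool.Graph.R_pool_sql_team_seeded_620a6dc7.JC3.F1
import Pool.Graph.R_pool_sql_team_seeded_620a6dc7.JC3.F2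
import Pool.Graph.R_pool_sql_team_seeded_620a6dc7.JC3.F3
import Pool.Graph.R_pool_sql_team_seeded_620a6dc7.JC3.H123
import Pool.Graph.R_pool_sql_team_seeded_620a6dc7.JC3.H4
import Pool.Graph.R_pool_sql_team_seeded_620a6dc7.JC3.I1
import Pool.Graph.R_pool_sql_team_seeded_620a6dc7.JC3.I2

/-! The pieces of the library project JC3 put together. -/

set_option autoImplicit false

namespace Pool.Agent.H899.JC

open Pool.Agent.JC3

theorem c1 : StmtC1 := C1_proof
theorem c3 : StmtC3 := C3_proof c1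
theorem e1 : StmtE1 := E1_proof A4_proof
theorem e2 : StmtE2 := E2_proof c1 e1
theorem e3 : StmtE3 := E3_proof c1 e2
theorem d2 : StmtD2 := D2_proof c1 C2_proof c3 C4_proof A2_proof
theorem e4 : StmtE4 := E4_proof c1 e1 d2
theorem e5 : StmtE5 := E5_proof c1 C5_proof
theorem e6 : StmtE6 := E6_proof e2 d2
theorem d3 : StmtD3 := D3_proof c1
theorem b3 : StmtB3 := B3_proof B2_proof A3_proof
theorem b4 : StmtB4 := B4_proof B2_proof A3_proof
theorem f1 : StmtF1 := F1_proof A5_proof e5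
theorem f2 : StmtF2 := F2_proof b4 d3
theorem f3 : StmtF3 := F3_proof f1 f2 A6_proof d3
theorem h1 : StmtH1 := H1_proof A6_proof B1_proof c1 C5_proof d2 e2 e3 e6 f3
theorem h2 : StmtH2 := H2_proof A6_proof B1_proof c1 C5_proof d2 e2 e3 e6 f3
theorem h3 : StmtH3 := H3_proof A6_proof B1_proof c1 C5_proof d2 e2 e3 e6 f3

end Pool.Agent.H899.JC
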